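import Pool.Agent.H295R2.SI.Defs

/-! Task T01: the window `cos (s x)`. -/

open Complex Filter Topology Set MeasureTheory

namespace H255SI

open H370 H295SI

theorem half_bounds {s : ℝ} (hs : 0 < s) (hs2 : s ≤ Real.sqrt 2) : 0 < s / 2 ∧ s / 2 < 1 := by
  refine ⟨by linarith, ?_⟩
  have h1 : Real.sqrt 2 < 2 := by
    rw [Real.sqrt_lt' (by norm_num)]
    norm_num
  linarith

theorem sin_pos {s : ℝ} (hs : 0 < s) (hs2 : s ≤ Real.sqrt 2) : 0 < Real.sin (s / 2) := by
  obtain ⟨h1, h2⟩ := half_bounds hs hs2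
  exact Real.sin_pos_of_pos_of_lt_pi h1 (by linarith [Real.pi_gt_three])

theorem winS : H295SI.WinS := by
  intro s hs hs2
  have hsin := sin_pos hs hs2
  obtain ⟨h1, h2⟩ := half_bounds hs hs2
  refine ⟨?_, ?_, ?_, ?_⟩
  · unfold gS
    fun_prop
  · intro x hx1 hx2
    unfold gS
    have hc : 0 ≤ Real.cos (s * x) := by
      apply Real.cos_nonneg_of_neg_pi_div_two_le_of_le
      · have : s * (-1 / 2) ≤ s * x := mul_le_mul_of_nonneg_left hx1 hs.le
        linarith [Real.pi_gt_three]
      · have : s * x ≤ s * (1 / 2) := mul_le_mul_of_nonneg_left hx2 hs.le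
        linarith [Real.pi_gt_three]
    positivity
  · intro x
    unfold gS
    rw [mul_neg, Real.cos_neg]
  · have h3 : ∀ x : ℝ, gS s x = (s / (2 * Real.sin (s / 2))) * Real.cos (s * x) := by
      intro x
      unfold gS
      ring
    simp_rw [h3]
    rw [intervalIntegral.integral_const_mul,
      intervalIntegral.integral_comp_mul_left (fun x => Real.cos x) hs.ne', integral_cos]
    have h4 : s * (1 / 2) = s / 2 := by ring
    have h5 : s * (-1 / 2) = -(s / 2) := by ring
    rw [h4, h5, Real.sin_neg, smul_eq_mul]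
    field_simp
    ring

end H255SI
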